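import Mathlib
import Pool.Agent.H29.Psi

namespace Pool.Agent.Results.MP_e01960_al.Counter

open MvPolynomial

/-- `(f)_{S_d}`: the ideal generated by the orbit of `f` under permutations of the variables. -/
noncomputable def orbitIdeal {k : Type} [Field k] {d : ℕ} (f : MvPolynomial (Fin d) k) :
    Ideal (MvPolynomial (Fin d) k) :=
  Ideal.span (Set.range fun σ : Equiv.Perm (Fin d) => rename σ f)

/-- Principal symmetric ideal. -/
def IsPsi {k : Type} [Field k] {d : ℕ} (I : Ideal (MvPolynomial (Fin d) k)) : Prop :=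
  ∃ (f : MvPolynomial (Fin d) k) (n : ℕ), f.IsHomogeneous n ∧ I = orbitIdeal f

open Pool.Agent.H29.Psi

theorem act (σ : Equiv.Perm (Fin 5)) :
    ∃ π : Equiv.Perm (Fin 6), ∀ o, rename σ (g o) = g (π o) := by
  induction σ using Equiv.Perm.swap_induction_on with
  | one => exact ⟨1, fun o => by simp⟩
  | swap_mul σ i j _ ih =>
    obtain ⟨π, hπ⟩ := ih
    refine ⟨PiE i j * π, fun o => ?_⟩
    have : rename ⇑(Equiv.swap i j * σ) (g o) = rename (Equiv.swap i j) (rename σ (g o)) := by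
      rw [rename_rename]; rfl
    rw [this, hπ, g_swap]
    rfl

theorem actL (L : List (Fin 5 × Fin 5)) : ∃ σ : Equiv.Perm (Fin 5),
    ∀ o, rename σ (g o) = g (L.foldr (fun p o => Pi p.1 p.2 o) o) := by
  induction L with
  | nil => exact ⟨1, fun o => by simp⟩
  | cons p L ih =>
    obtain ⟨σ, hσ⟩ := ih
    refine ⟨Equiv.swap p.1 p.2 * σ, fun o => ?_⟩
    have : rename ⇑(Equiv.swap p.1 p.2 * σ) (g o) =
        rename (Equiv.swap p.1 p.2) (rename σ (g o)) := by
      rw [rename_rename]; rfl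
    rw [this, hσ, g_swap]
    rfl

theorem tab_ok : ∀ a b : Fin 6, a ≠ b →
    (tab a b).foldr (fun p o => Pi p.1 p.2 o) 0 = a ∧
    (tab a b).foldr (fun p o => Pi p.1 p.2 o) 1 = b := by decide +kernel

theorem two_trans {a b : Fin 6} (h : a ≠ b) : ∃ σ : Equiv.Perm (Fin 5),
    rename σ (g 0) = g a ∧ rename σ (g 1) = g b := by
  obtain ⟨σ, hσ⟩ := actL (tab a b)
  exact ⟨σ, by rw [hσ, (tab_ok a b h).1], by rw [hσ, (tab_ok a b h).2]⟩

noncomputable def I : Ideal R := Ideal.span (Set.range g)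

theorem I_eq : I = orbitIdeal (g 0) := by
  unfold I orbitIdeal
  congr 1
  ext p
  constructor
  · rintro ⟨a, rfl⟩
    obtain ⟨b, hb⟩ := exists_ne a
    obtain ⟨σ, h1, -⟩ := two_trans hb.symm
    exact ⟨σ, h1⟩
  · rintro ⟨σ, rfl⟩
    obtain ⟨π, hπ⟩ := act σ
    exact ⟨π 0, (hπ 0).symm⟩

theorem two_R : (2 : R) = 0 := CharTwo.two_eq_zero

theorem I_sq : I ^ 2 = orbitIdeal (g 0 * g 0 + g 0 * g 1) := by
  set J := orbitIdeal (g 0 * g 0 + g 0 * g 1)
  have G : ∀ a b : Fin 6, a ≠ b → g a * g a + g a * g b ∈ J := by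
    intro a b h
    obtain ⟨σ, h1, h2⟩ := two_trans h
    refine Ideal.subset_span ⟨σ, ?_⟩
    simp only [map_add, map_mul, h1, h2]
  have G2 : ∀ a b : Fin 6, a ≠ b → g a * g a + g b * g b ∈ J := by
    intro a b h
    have := J.add_mem (G a b h) (G b a h.symm)
    convert this using 1
    linear_combination (-(g a * g b)) * two_R
  have hE : E2 g = 0 := E2_f two_R X
  have G0 : g 0 * g 0 ∈ J := by
    have := J.add_mem (J.add_mem (J.add_mem (J.add_mem (J.add_mem
      (J.add_mem (J.add_mem (J.add_mem (J.add_mem (J.add_mem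
      (J.add_mem (J.add_mem (J.add_mem (J.add_mem (J.add_mem
      (G 0 1 (by decide)) (G 0 2 (by decide))) (G 0 3 (by decide))) (G 0 4 (by decide)))
      (G 0 5 (by decide))) (G 1 2 (by decide))) (G 1 3 (by decide))) (G 1 4 (by decide)))
      (G 1 5 (by decide))) (G 2 3 (by decide))) (G 2 4 (by decide))) (G 2 5 (by decide)))
      (G 3 4 (by decide))) (G 3 5 (by decide))) (G 4 5 (by decide))) (G2 2 4 (by decide))
    convert this using 1
    unfold E2 at hE
    linear_combination (-1 : R) * hE -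
      (2 * g 0 * g 0 + 2 * g 1 * g 1 + 2 * g 2 * g 2 + g 3 * g 3 + g 4 * g 4) * two_R
  have Ga : ∀ a, g a * g a ∈ J := by
    intro a
    by_cases h : a = 0
    · rw [h]; exact G0
    · have := J.sub_mem (G2 a 0 h) G0
      rwa [add_sub_cancel_right] at this
  have Gab : ∀ a b, g a * g b ∈ J := by
    intro a b
    by_cases h : a = b
    · rw [h]; exact Ga b
    · have := J.sub_mem (G a b h) (Ga a)
      rwa [add_sub_cancel_left] at this
  rw [pow_two]
  apply le_antisymm
  · unfold I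
    rw [Ideal.span_mul_span', Ideal.span_le]
    rintro _ ⟨_, ⟨a, rfl⟩, _, ⟨b, rfl⟩, rfl⟩
    exact Gab a b
  · apply Ideal.span_le.2
    rintro _ ⟨σ, rfl⟩
    obtain ⟨π, hπ⟩ := act σ
    have hg : ∀ a, g a ∈ I := fun a => Ideal.subset_span ⟨a, rfl⟩
    simp only [map_add, map_mul, hπ, SetLike.mem_coe]
    exact Ideal.add_mem _ (Ideal.mul_mem_mul (hg _) (hg _)) (Ideal.mul_mem_mul (hg _) (hg _))

theorem hc (p q : R) (hq : q.IsHomogeneous 28) :
    homogeneousComponent 28 (p * q) = C (constantCoeff p) * q := by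
  induction p using MvPolynomial.induction_on' with
  | monomial u a =>
    have h1 : (monomial u a * q).IsHomogeneous (u.degree + 28) :=
      (isHomogeneous_monomial a rfl).mul hq
    rw [homogeneousComponent_of_mem h1, constantCoeff_monomial]
    by_cases hu : u = 0
    · subst hu
      simp
    · have : u.degree ≠ 0 := fun h => hu ((Finsupp.degree_eq_zero_iff u).1 h)
      rw [if_neg (by omega), if_neg hu]
      simp
  | add p1 p2 h1 h2 => rw [add_mul, map_add, h1, h2, map_add, map_add, add_mul]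

theorem key (p : Fin 6 → R) (h : ∑ o, p o * g o = 0) : ∀ o, constantCoeff (p o) = 0 := by
  apply indep
  have := congrArg (homogeneousComponent 28) h
  rw [map_sum, map_zero] at this
  rw [← this]
  exact Finset.sum_congr rfl fun o _ => (hc _ _ (f_hom o)).symm

noncomputable def J0 : Ideal R where
  carrier := {q | ∃ p : Fin 6 → R, q = ∑ o, p o * g o ∧ ∑ o, constantCoeff (p o) = 0}
  add_mem' := by
    rintro _ _ ⟨p, rfl, hp⟩ ⟨q, rfl, hq⟩
    refine ⟨p + q, ?_, ?_⟩
    · simp [add_mul, Finset.sum_add_distrib]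
    · simp only [Pi.add_apply, map_add, Finset.sum_add_distrib, hp, hq, add_zero]
  zero_mem' := ⟨0, by simp, by simp⟩
  smul_mem' := by
    rintro c _ ⟨p, rfl, hp⟩
    refine ⟨fun o => c * p o, ?_, ?_⟩
    · simp [Finset.mul_sum, mul_assoc]
    · simp only [map_mul, ← Finset.mul_sum, hp, mul_zero]

theorem g0_not : g 0 ∉ J0 := by
  rintro ⟨p, h1, h2⟩
  have h3 := key (fun o => p o - if o = 0 then 1 else 0) (by
    simp only [sub_mul, Finset.sum_sub_distrib, ← h1]
    simp)
  have h4 : ∑ o : Fin 6, constantCoeff (p o - if o = 0 then 1 else 0) = 0 :=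
    Finset.sum_eq_zero fun o _ => h3 o
  simp only [map_sub, Finset.sum_sub_distrib, h2] at h4
  simp [Fin.sum_univ_six] at h4

theorem fin_chk : ∀ i j : Fin 5, i ≠ j → ∀ (a : Fin 6 → ZMod 2) (c : ZMod 2),
    (∀ o, a (Pi i j o) = c * a o) → a 0 + a 1 + a 2 + a 3 + a 4 + a 5 = 0 := by
  decide +kernel

theorem no_inv (h : R) (hh : I = orbitIdeal h) (i j : Fin 5) (hij : i ≠ j) (c : ZMod 2) :
    rename (Equiv.swap i j) h ≠ c • h := by
  intro hτ
  have hI : h ∈ I := by
    rw [hh]
    exact Ideal.subset_span ⟨1, by simp⟩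
  obtain ⟨p, hp⟩ := Ideal.mem_span_range_iff_exists_fun.1 hI
  have h1 : rename (Equiv.swap i j) h =
      ∑ o, rename (Equiv.swap i j) (p (Pi i j o)) * g o := by
    rw [← hp, map_sum, ← Equiv.sum_comp (PiE i j)]
    refine Finset.sum_congr rfl fun o _ => ?_
    rw [map_mul, g_swap]
    change _ * g (Pi i j (Pi i j o)) = _
    rw [Pi_inv]
    rfl
  have h2 := key (fun o => rename (Equiv.swap i j) (p (Pi i j o)) - C c * p o) (by
    simp only [sub_mul, Finset.sum_sub_distrib, ← h1, mul_assoc, ← Finset.mul_sum, hp, hτ]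
    rw [smul_eq_C_mul, sub_self])
  have h3 : ∑ o, constantCoeff (p o) = 0 := by
    rw [Fin.sum_univ_six]
    apply fin_chk i j hij (fun o => constantCoeff (p o)) c
    intro o
    have := h2 o
    rw [map_sub, map_mul, constantCoeff_rename, constantCoeff_C, sub_eq_zero] at this
    exact this
  apply g0_not
  have h4 : I ≤ J0 := by
    rw [hh]
    apply Ideal.span_le.2
    rintro _ ⟨σ, rfl⟩
    obtain ⟨π, hπ⟩ := act σ
    refine ⟨fun o => rename σ (p (π.symm o)), ?_, ?_⟩
    · change rename σ h = _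
      rw [← hp, map_sum, ← Equiv.sum_comp π.symm]
      refine Finset.sum_congr rfl fun o _ => ?_
      rw [map_mul, hπ, Equiv.apply_symm_apply]
    · simp only [constantCoeff_rename]
      rw [Equiv.sum_comp π.symm (fun o => constantCoeff (p o)), h3]
  exact h4 (Ideal.subset_span ⟨0, rfl⟩)

theorem result : ∃ (k : Type) (_ : Field k) (d : ℕ) (I : Ideal (MvPolynomial (Fin d) k)),
    2 ≤ d ∧ IsPsi I ∧ IsPsi (I ^ 2) ∧
    ∀ f : MvPolynomial (Fin d) k, I = orbitIdeal f → ∀ i j : Fin d, i ≠ j → ∀ c : k,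
      rename (Equiv.swap i j) f ≠ c • f :=
  ⟨ZMod 2, inferInstance, 5, I, by norm_num, ⟨g 0, 28, f_hom 0, I_eq⟩,
    ⟨_, 28 + 28, ((f_hom 0).mul (f_hom 0)).add ((f_hom 0).mul (f_hom 1)), I_sq⟩, no_inv⟩

end Pool.Agent.Results.MP_e01960_al.Counter
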